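import Pool.Agent.helper71.PNB.M1
/-! MODULE M2 : the charts of the manifold `XX`. -/
open Complex Metric Set Filter Topology InnerProductSpace
open scoped ContDiff Manifold Laplacian
noncomputable section
namespace PNB

theorem mono_one_zero (x : Fin 2 → ℂ) : mono x 0 = x 0 ^ 2 := by simp [mono]
theorem mono_two (x : Fin 2 → ℂ) : mono x 2 = x 1 ^ 2 := by simp [mono]

theorem mono_bidx (σ : Fin 3 → Fin 2) (x : Pt) (j : Fin 3) :
    mono (x j) (bidx σ j) = x j (σ j) ^ 2 := by
  unfold bidx
  split_ifs with h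
  · rw [h, mono_one_zero]
  · have : σ j = 1 := by
      have := (σ j).isLt
      apply Fin.ext
      have h0 : (σ j : ℕ) ≠ 0 := fun h' => h (Fin.ext h')
      simp; omega
    rw [this, mono_two]

theorem xsec_self (i : CI) (z : Fin 3 → ℂ) (j : Fin 3) : xsec i z j (i.σ j) = 1 := by
  simp [xsec]

theorem add_one_ne (k : Fin 2) : k + 1 ≠ k := by fin_cases k <;> simp

theorem xsec_other (i : CI) (z : Fin 3 → ℂ) (j : Fin 3) : xsec i z j (i.σ j + 1) = z j := by
  simp [xsec]

theorem eq_or_eq (k l : Fin 2) : k = l ∨ k = l + 1 := by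
  fin_cases k <;> fin_cases l <;> simp

/-- evaluation after changing the coefficient of the monomial `bidx σ` -/
theorem ev_sub (T : TQ) (x : Pt) (b : Q) (r : ℂ) :
    ev (fun q => T q - (if q = b then r else 0)) x = ev T x - r * ∏ j, mono (x j) (b j) := by
  unfold ev
  simp only [sub_mul, Finset.sum_sub_distrib, ite_mul, zero_mul, Finset.sum_ite_eq',
    Finset.mem_univ, if_true]

theorem wsec_c (i : CI) (u : Fin 26 → ℂ) : wsec i u i.c = 1 := by simp [wsec]

theorem wsec_of (i : CI) (u : Fin 26 → ℂ) (o : Option Q)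
    (h : o ≠ i.c ∧ o ≠ some (bidx i.σ)) : wsec i u o = u (idx i ⟨o, h⟩) := by
  unfold wsec
  rw [if_neg h.1, dif_pos h]

theorem wv_sec (i : CI) (z : EE) (o : Option Q) (h : o ≠ some (bidx i.σ)) :
    wv i (sec i z) o = wsec i z.2 o := by
  rcases o with _ | q
  · simp [wv, sec, xsec_self]
  · have : q ≠ bidx i.σ := fun h' => h (by rw [h'])
    simp [wv, sec, this]

theorem ev_sec (i : CI) (z : EE) : ev (sec i z).2.1 (sec i z).1 = 0 := by
  show ev (fun q => wsec i z.2 (some q) -
      (if q = bidx i.σ then ev (fun q => wsec i z.2 (some q)) (xsec i z.1) else 0))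
      (xsec i z.1) = 0
  rw [ev_sub]
  simp [mono_bidx, xsec_self]

theorem sec_mem (i : CI) (z : EE) : sec i z ∈ Dom i := by
  have hc : wv i (sec i z) i.c ≠ 0 := by
    rw [wv_sec i z i.c i.hc, wsec_c]; exact one_ne_zero
  have hx : ∀ j, (sec i z).1 j (i.σ j) ≠ 0 := fun j => by
    show xsec i z.1 j (i.σ j) ≠ 0
    rw [xsec_self]; exact one_ne_zero
  refine ⟨⟨fun j h0 => hx j (by rw [h0]; rfl), ?_, ev_sec i z⟩, hx, hc⟩
  by_contra hcon
  push Not at hcon
  apply hc
  rcases hcc : i.c with _ | q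
  · simp [wv, hcon.2]
  · simp [wv, hcon.1]

theorem co_sec (i : CI) (z : EE) : co i (sec i z) = z := by
  unfold co
  ext1
  · funext j
    show xsec i z.1 j (i.σ j + 1) / xsec i z.1 j (i.σ j) = z.1 j
    rw [xsec_self, xsec_other, div_one]
  · funext k
    have h := ((idx i).symm k).2
    show wv i (sec i z) ((idx i).symm k).1 / wv i (sec i z) i.c = z.2 k
    rw [wv_sec i z _ h.2, wv_sec i z _ i.hc, wsec_c, div_one, wsec_of i z.2 _ h]
    simp

theorem wv_act (i : CI) {c : Fin 3 → ℂ} (hc : ∀ j, c j ≠ 0) (d : ℂ) (p : Lift) (o : Option Q) :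
    wv i (act c d p) o = d * wv i p o := by
  have hprod : (∏ j, c j) ≠ 0 := Finset.prod_ne_zero_iff.2 fun j _ => hc j
  rcases o with _ | q
  · simp only [wv, act, Pi.smul_apply, smul_eq_mul, Finset.prod_mul_distrib]
    field_simp
  · simp [wv, act]

theorem co_act (i : CI) {c : Fin 3 → ℂ} {d : ℂ} (hc : ∀ j, c j ≠ 0) (hd : d ≠ 0) (p : Lift) :
    co i (act c d p) = co i p := by
  unfold co
  ext1
  · funext j
    show (c j • p.1 j) (i.σ j + 1) / (c j • p.1 j) (i.σ j) = _
    simp only [Pi.smul_apply, smul_eq_mul]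
    exact mul_div_mul_left _ _ (hc j)
  · funext k
    show wv i (act c d p) _ / wv i (act c d p) _ = _
    rw [wv_act i hc, wv_act i hc]
    exact mul_div_mul_left _ _ hd

theorem Dom_act (i : CI) {c : Fin 3 → ℂ} {d : ℂ} (hc : ∀ j, c j ≠ 0) (hd : d ≠ 0) {p : Lift}
    (hp : p ∈ Dom i) : act c d p ∈ Dom i := by
  refine ⟨act_mem hc hd hp.1, fun j => mul_ne_zero (hc j) (hp.2.1 j), ?_⟩
  rw [wv_act i hc]
  exact mul_ne_zero hd hp.2.2

/-- a normalized element of the domain is determined by its coordinates -/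
theorem sec_co_aux (i : CI) {p : Lift} (hp : p ∈ Dom i) (h1 : ∀ j, p.1 j (i.σ j) = 1)
    (h2 : wv i p i.c = 1) : sec i (co i p) = p := by
  have hx : xsec i (co i p).1 = p.1 := by
    funext j k
    rcases eq_or_eq k (i.σ j) with h | h
    · rw [h, xsec_self, h1]
    · rw [h, xsec_other]
      show p.1 j (i.σ j + 1) / p.1 j (i.σ j) = _
      rw [h1, div_one]
  have hw : ∀ o, o ≠ some (bidx i.σ) → wsec i (co i p).2 o = wv i p o := by
    intro o ho
    by_cases hoc : o = i.c
    · rw [hoc, wsec_c, h2]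
    · rw [wsec_of i _ o ⟨hoc, ho⟩]
      show wv i p ((idx i).symm (idx i ⟨o, _⟩)).1 / wv i p i.c = _
      rw [Equiv.symm_apply_apply, h2, div_one]
  have hs : (sec i (co i p)).2.2 = p.2.2 := by
    show wsec i (co i p).2 none = _
    rw [hw none (by simp)]
    simp [wv, h1]
  have hT : ∀ q, q ≠ bidx i.σ → (sec i (co i p)).2.1 q = p.2.1 q := by
    intro q hq
    show wsec i (co i p).2 (some q) - (if q = bidx i.σ then _ else 0) = _
    rw [if_neg hq, sub_zero, hw (some q) (by simpa using hq)]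
    rfl
  have hTb : (sec i (co i p)).2.1 (bidx i.σ) = p.2.1 (bidx i.σ) := by
    have e1 := ev_sec i (co i p)
    have e2 := hp.1.2.2
    have hx' : (sec i (co i p)).1 = p.1 := hx
    rw [hx'] at e1
    unfold ev at e1 e2
    rw [← Finset.add_sum_erase _ _ (Finset.mem_univ (bidx i.σ))] at e1 e2
    have e3 : ∀ q ∈ Finset.univ.erase (bidx i.σ), (sec i (co i p)).2.1 q *
        ∏ j, mono (p.1 j) (q j) = p.2.1 q * ∏ j, mono (p.1 j) (q j) := by
      intro q hq
      rw [hT q (Finset.ne_of_mem_erase hq)]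
    rw [Finset.sum_congr rfl e3] at e1
    have e4 : (∏ j, mono (p.1 j) (bidx i.σ j)) = 1 := by simp [mono_bidx, h1]
    rw [e4] at e1 e2
    linear_combination e1 - e2
  ext1
  · exact hx
  · ext1
    · funext q
      by_cases hq : q = bidx i.σ
      · rw [hq]; exact hTb
      · exact hT q hq
    · exact hs

theorem sec_co (i : CI) {p : Lift} (hp : p ∈ Dom i) :
    sec i (co i p) = act (fun j => (p.1 j (i.σ j))⁻¹) (wv i p i.c)⁻¹ p := by
  have hc : ∀ j, (p.1 j (i.σ j))⁻¹ ≠ 0 := fun j => inv_ne_zero (hp.2.1 j)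
  have hd : (wv i p i.c)⁻¹ ≠ 0 := inv_ne_zero hp.2.2
  rw [← co_act i hc hd p]
  apply sec_co_aux i (Dom_act i hc hd hp)
  · intro j
    show (p.1 j (i.σ j))⁻¹ * p.1 j (i.σ j) = 1
    exact inv_mul_cancel₀ (hp.2.1 j)
  · rw [wv_act i hc]
    exact inv_mul_cancel₀ hp.2.2

theorem exists_mem_Dom {p : Lift} (hp : p ∈ LS) : ∃ i, p ∈ Dom i := by
  choose σ hσ using fun j => exists_coord (hp.1 j)
  have hprod : (∏ j, p.1 j (σ j)) ≠ 0 := Finset.prod_ne_zero_iff.2 fun j _ => hσ j
  by_cases hs : p.2.2 = 0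
  · have hT : p.2.1 ≠ 0 := by
      rcases hp.2.1 with h | h
      · exact h
      · exact absurd hs h
    have : ∃ q, q ≠ bidx σ ∧ p.2.1 q ≠ 0 := by
      by_contra hcon
      push Not at hcon
      apply hT
      have e2 := hp.2.2
      unfold ev at e2
      rw [Finset.sum_eq_single (bidx σ) (fun q _ hq => by rw [hcon q hq, zero_mul])
        (fun h => absurd (Finset.mem_univ _) h)] at e2
      have e4 : (∏ j, mono (p.1 j) (bidx σ j)) ≠ 0 := by
        rw [Finset.prod_ne_zero_iff]
        intro j _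
        rw [mono_bidx]
        exact pow_ne_zero 2 (hσ j)
      have e5 := (mul_eq_zero.1 e2).resolve_right e4
      funext q
      by_cases hq : q = bidx σ
      · rw [hq]; exact e5
      · exact hcon q hq
    obtain ⟨q, hq, hTq⟩ := this
    exact ⟨⟨σ, some q, by simpa using hq⟩, hp, hσ, hTq⟩
  · exact ⟨⟨σ, none, by simp⟩, hp, hσ, mul_ne_zero hs hprod⟩

theorem contDiff_wsec (i : CI) (o : Option Q) : ContDiff ℂ ω fun z : EE => wsec i z.2 o := by
  by_cases h1 : o = i.c
  · subst h1
    simp only [wsec_c]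
    exact contDiff_const
  · by_cases h2 : o = some (bidx i.σ)
    · have : (fun z : EE => wsec i z.2 o) = fun _ => 0 := by
        funext z
        unfold wsec
        rw [if_neg h1, dif_neg (fun h => h.2 h2)]
      rw [this]
      exact contDiff_const
    · have : (fun z : EE => wsec i z.2 o) = fun z => z.2 (idx i ⟨o, h1, h2⟩) := by
        funext z
        exact wsec_of i z.2 o ⟨h1, h2⟩
      rw [this]
      fun_prop

theorem contDiff_xsec (i : CI) (j : Fin 3) (k : Fin 2) :
    ContDiff ℂ ω fun z : EE => xsec i z.1 j k := by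
  unfold xsec
  split_ifs
  · exact contDiff_const
  · fun_prop

theorem contDiff_ev {E : Type*} [NormedAddCommGroup E] [NormedSpace ℂ E] {T : E → TQ} {x : E → Pt}
    {n : WithTop ℕ∞} (hT : ∀ q, ContDiff ℂ n fun z => T z q)
    (hx : ∀ j k, ContDiff ℂ n fun z => x z j k) : ContDiff ℂ n fun z => ev (T z) (x z) := by
  unfold ev mono
  refine ContDiff.sum fun q _ => (hT q).mul ?_
  refine contDiff_prod fun j _ => ?_
  exact ((hx j 0).pow _).mul ((hx j 1).pow _)

theorem contDiff_sec (i : CI) : ContDiff ℂ ω (sec i) := by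
  unfold sec
  refine ContDiff.prodMk ?_ (ContDiff.prodMk ?_ (contDiff_wsec i none))
  · rw [contDiff_pi]
    intro j
    rw [contDiff_pi]
    intro k
    exact contDiff_xsec i j k
  · rw [contDiff_pi]
    intro q
    refine (contDiff_wsec i (some q)).sub ?_
    split_ifs
    · exact contDiff_ev (fun q => contDiff_wsec i (some q)) (contDiff_xsec i)
    · exact contDiff_const

theorem contDiff_wv (i : CI) (o : Option Q) : ContDiff ℂ ω fun p : Lift => wv i p o := by
  rcases o with _ | q
  · unfold wv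
    exact (by fun_prop : ContDiff ℂ ω fun p : Lift => p.2.2).mul
      (contDiff_prod fun j _ => by fun_prop)
  · unfold wv
    fun_prop

theorem contDiffOn_co (i : CI) :
    ContDiffOn ℂ ω (co i) {p | (∀ j, p.1 j (i.σ j) ≠ 0) ∧ wv i p i.c ≠ 0} := by
  unfold co
  refine ContDiffOn.prodMk ?_ ?_
  · rw [contDiffOn_pi]
    intro j
    refine ContDiffOn.div (by fun_prop) (by fun_prop) fun p hp => hp.1 j
  · rw [contDiffOn_pi]
    intro k
    exact (contDiff_wv i _).contDiffOn.div (contDiff_wv i _).contDiffOn fun p hp => hp.2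

theorem isOpen_Dom' (i : CI) : IsOpen {p : Lift | (∀ j, p.1 j (i.σ j) ≠ 0) ∧ wv i p i.c ≠ 0} := by
  rw [ofPred_and, ofPred_forall]
  refine (isOpen_iInter_of_finite fun j => ?_).inter ?_
  · exact isOpen_ne_fun (by fun_prop) continuous_const
  · exact isOpen_ne_fun (contDiff_wv i _).continuous continuous_const

theorem continuousOn_co (i : CI) :
    ContinuousOn (co i) {p | (∀ j, p.1 j (i.σ j) ≠ 0) ∧ wv i p i.c ≠ 0} :=
  (contDiffOn_co i).continuousOn

/-- the coordinates on the quotient -/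
def coX (i : CI) : XX → EE :=
  Quotient.lift (s := lsSetoid) (fun p : LS => co i p) (by
    rintro p p' ⟨c, d, hc, hd, h⟩
    show co i p = co i p'
    rw [h, co_act i hc hd])

theorem coX_mk' (i : CI) (p : LS) : coX i (mk' p) = co i p := rfl

theorem coX_prj (i : CI) {p : Lift} (hp : p ∈ LS) : coX i (prj p) = co i p := by
  rw [prj_of_mem hp]; rfl

theorem prj_sec_coX (i : CI) {p : Lift} (hp : p ∈ Dom i) : prj (sec i (co i p)) = prj p := by
  refine ((prj_eq_iff hp.1 (sec_mem i _).1).2 ⟨_, _, ?_, ?_, sec_co i hp⟩).symm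
  · exact fun j => inv_ne_zero (hp.2.1 j)
  · exact inv_ne_zero hp.2.2

theorem prj_mem_image (i : CI) {p : Lift} (hp : p ∈ LS) : prj p ∈ prj '' Dom i ↔ p ∈ Dom i := by
  constructor
  · rintro ⟨p', hp', he⟩
    obtain ⟨c, d, hc, hd, h⟩ := (prj_eq_iff hp'.1 hp).1 he
    rw [h]
    exact Dom_act i hc hd hp'
  · exact fun h => ⟨p, h, rfl⟩

theorem isOpen_image_Dom (i : CI) : IsOpen (prj '' Dom i) := by
  have h1 : prj '' Dom i = mk' '' (Subtype.val ⁻¹'
      {p : Lift | (∀ j, p.1 j (i.σ j) ≠ 0) ∧ wv i p i.c ≠ 0}) := by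
    ext x
    constructor
    · rintro ⟨p, hp, rfl⟩
      exact ⟨⟨p, hp.1⟩, hp.2, (prj_of_mem hp.1).symm⟩
    · rintro ⟨p, hp, rfl⟩
      exact ⟨p, ⟨p.2, hp⟩, prj_coe p⟩
  rw [h1]
  exact isOpenMap_mk' _ ((isOpen_Dom' i).preimage continuous_subtype_val)

theorem continuous_prj_sec (i : CI) : Continuous fun z => prj (sec i z) := by
  rw [← continuousOn_univ]
  exact continuousOn_prj.comp (contDiff_sec i).continuous.continuousOn fun z _ => (sec_mem i z).1

/-- the charts -/
def chartX (i : CI) : OpenPartialHomeomorph XX EE where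
  toFun := coX i
  invFun z := prj (sec i z)
  source := prj '' Dom i
  target := univ
  map_source' _ _ := mem_univ _
  map_target' z _ := ⟨sec i z, sec_mem i z, rfl⟩
  left_inv' := by
    rintro _ ⟨p, hp, rfl⟩
    rw [coX_prj i hp.1]
    exact prj_sec_coX i hp
  right_inv' z _ := by
    rw [coX_prj i (sec_mem i z).1]
    exact co_sec i z
  open_source := isOpen_image_Dom i
  open_target := isOpen_univ
  continuousOn_toFun := by
    rintro _ ⟨p, hp, rfl⟩
    apply ContinuousAt.continuousWithinAt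
    have e : prj p = mk' ⟨p, hp.1⟩ := prj_of_mem hp.1
    rw [e, ← isOpenQuotientMap_mk'.continuousAt_comp_iff]
    have h1 : ContinuousAt (co i) p := (continuousOn_co i).continuousAt
      ((isOpen_Dom' i).mem_nhds hp.2)
    exact ContinuousAt.comp (f := (Subtype.val : LS → Lift)) (x := ⟨p, hp.1⟩) h1
      continuous_subtype_val.continuousAt
  continuousOn_invFun := (continuous_prj_sec i).continuousOn

theorem chartX_source (i : CI) : (chartX i).source = prj '' Dom i := rfl
theorem chartX_target (i : CI) : (chartX i).target = univ := rfl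
theorem chartX_symm (i : CI) (z : EE) : (chartX i).symm z = prj (sec i z) := rfl
theorem chartX_prj (i : CI) {p : Lift} (hp : p ∈ Dom i) : chartX i (prj p) = co i p :=
  coX_prj i hp.1
theorem prj_mem_source (i : CI) {p : Lift} (hp : p ∈ LS) :
    prj p ∈ (chartX i).source ↔ p ∈ Dom i := prj_mem_image i hp

theorem exists_chart (x : XX) : ∃ i, x ∈ (chartX i).source := by
  obtain ⟨p, hp, rfl⟩ := prj_surj x
  obtain ⟨i, hi⟩ := exists_mem_Dom hp
  exact ⟨i, p, hi, rfl⟩

instance : ChartedSpace EE XX where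
  atlas := range chartX
  chartAt x := chartX (exists_chart x).choose
  mem_chart_source x := (exists_chart x).choose_spec
  chart_mem_atlas _ := mem_range_self _

theorem mem_atlas_iff (e : OpenPartialHomeomorph XX EE) :
    e ∈ atlas EE XX ↔ ∃ i, e = chartX i := by
  constructor
  · rintro ⟨i, rfl⟩
    exact ⟨i, rfl⟩
  · rintro ⟨i, rfl⟩
    exact mem_range_self i

instance : IsManifold 𝓘(ℂ, EE) ω XX := by
  apply isManifold_of_contDiffOn
  rintro _ _ ⟨i, rfl⟩ ⟨i', rfl⟩
  simp only [modelWithCornersSelf_coe, modelWithCornersSelf_coe_symm, Function.comp_id,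
    Function.id_comp, preimage_id, range_id, inter_univ]
  have h : ContDiffOn ℂ ω (co i' ∘ sec i) (sec i ⁻¹' Dom i') :=
    (contDiffOn_co i').comp (contDiff_sec i).contDiffOn fun z hz => hz.2
  refine (h.congr ?_).mono ?_
  · intro z hz
    show chartX i' ((chartX i).symm z) = _
    rw [chartX_symm, chartX_prj i' hz]
    rfl
  · intro z hz
    have h2 : (chartX i).symm z ∈ (chartX i').source := hz.2
    rw [chartX_symm] at h2
    exact (prj_mem_source i' (sec_mem i z).1).1 h2

/-- a common point of all chart domains -/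
def pcom : Lift := (fun _ _ => 1, fun q => if q = 0 then -26 else 1, 1)

theorem pcom_mem : pcom ∈ LS := by
  refine ⟨fun j h => ?_, Or.inr one_ne_zero, ?_⟩
  · simpa [pcom] using congrFun h 0
  · show ev (fun q => if q = 0 then -26 else 1) (fun _ _ => 1) = 0
    have h1 : ∀ q : Q, ∏ j, mono (fun _ => (1:ℂ)) (q j) = 1 := fun q => by simp [mono]
    unfold ev
    simp only [h1, mul_one]
    rw [← Finset.add_sum_erase _ _ (Finset.mem_univ (0 : Q)), if_pos rfl,
      Finset.sum_congr rfl (g := fun _ => (1:ℂ)) (fun q hq => if_neg (Finset.ne_of_mem_erase hq))]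
    simp [Finset.card_erase_of_mem]

theorem pcom_mem_Dom (i : CI) : pcom ∈ Dom i := by
  refine ⟨pcom_mem, fun j => one_ne_zero, ?_⟩
  rcases i.c with _ | q
  · simp [wv, pcom]
  · simp only [wv, pcom]
    split_ifs <;> norm_num

instance : ConnectedSpace XX := by
  have h1 : ∀ i, IsPreconnected (prj '' Dom i) := by
    intro i
    have : prj '' Dom i = (fun z => prj (sec i z)) '' univ := by
      ext x
      constructor
      · rintro ⟨p, hp, rfl⟩
        exact ⟨co i p, mem_univ _, prj_sec_coX i hp⟩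
      · rintro ⟨z, _, rfl⟩
        exact ⟨sec i z, sec_mem i z, rfl⟩
    rw [this]
    exact isPreconnected_univ.image _ (continuous_prj_sec i).continuousOn
  have h2 : IsPreconnected (⋃ i, prj '' Dom i) := by
    apply isPreconnected_iUnion
    · exact ⟨prj pcom, mem_iInter.2 fun i => ⟨pcom, pcom_mem_Dom i, rfl⟩⟩
    · exact h1
  have h3 : (⋃ i, prj '' Dom i) = univ := by
    rw [eq_univ_iff_forall]
    intro x
    obtain ⟨i, hi⟩ := exists_chart x
    exact mem_iUnion.2 ⟨i, hi⟩
  rw [h3] at h2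
  exact { isPreconnected_univ := h2, toNonempty := ⟨prj pcom⟩ }

end PNB
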