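import Pool.Agent.helper61.PNB.ModB
import Pool.Agent.helper71.PNB.M2
import Pool.Agent.helper20.PNB.K1
/-! MODULE F : the closed forms `frm a b` on `XX`. -/
open Complex Metric Set Filter Topology InnerProductSpace
open scoped ContDiff Manifold Laplacian
noncomputable section
namespace PNB

/-! ### the pluriharmonic correction -/

/-- the difference between the potential on the lift space and the potential in the chart `i` -/
def hrm (a : Fin 3 → ℝ) (b : ℝ) (i : CI) (p : Lift) : ℝ :=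
  ∑ j, a j * Real.log ‖p.1 j (i.σ j)‖ + b * Real.log ‖wv i p i.c‖

/-- the open set of the ambient space defining `Dom i` -/
abbrev DomO (i : CI) : Set Lift := {p | (∀ j, p.1 j (i.σ j) ≠ 0) ∧ wv i p i.c ≠ 0}

theorem harmonicAt_hrm (a : Fin 3 → ℝ) (b : ℝ) (i : CI) {U : Set ℂ} {g : ℂ → Lift}
    (hU : IsOpen U) (hg : DifferentiableOn ℂ g U) {z : ℂ} (hz : z ∈ U) (hz' : g z ∈ DomO i) :
    HarmonicAt (fun ζ => hrm a b i (g ζ)) z := by
  have hA : AnalyticAt ℂ g z := hg.analyticAt (hU.mem_nhds hz)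
  have hW : AnalyticAt ℂ (fun ζ => wv i (g ζ) i.c) z := by
    have h1 : DifferentiableOn ℂ (fun ζ => wv i (g ζ) i.c) U :=
      ((contDiff_wv i i.c).differentiable (by simp)).comp_differentiableOn hg
    exact h1.analyticAt (hU.mem_nhds hz)
  have hX : ∀ j, AnalyticAt ℂ (fun ζ => (g ζ).1 j (i.σ j)) z := by
    intro j
    have h1 : DifferentiableOn ℂ (fun ζ => (g ζ).1 j (i.σ j)) U := by
      have h2 : Differentiable ℂ (fun p : Lift => p.1 j (i.σ j)) := by fun_prop
      exact h2.comp_differentiableOn hg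
    exact h1.analyticAt (hU.mem_nhds hz)
  have h3 : HarmonicAt (fun ζ => ∑ j, a j * Real.log ‖(g ζ).1 j (i.σ j)‖) z := by
    have h4 : (fun ζ => ∑ j, a j * Real.log ‖(g ζ).1 j (i.σ j)‖) =
        ((a 0 • fun ζ => Real.log ‖(g ζ).1 0 (i.σ 0)‖) +
        (a 1 • fun ζ => Real.log ‖(g ζ).1 1 (i.σ 1)‖)) +
        (a 2 • fun ζ => Real.log ‖(g ζ).1 2 (i.σ 2)‖) := by
      funext ζ
      simp [Fin.sum_univ_three]
    rw [h4]
    exact (((hX 0).harmonicAt_log_norm (hz'.1 0)).const_smul.add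
      ((hX 1).harmonicAt_log_norm (hz'.1 1)).const_smul).add
      ((hX 2).harmonicAt_log_norm (hz'.1 2)).const_smul
  exact h3.add ((hW.harmonicAt_log_norm hz'.2).const_smul (c := b))

theorem continuousOn_hrm (a : Fin 3 → ℝ) (b : ℝ) (i : CI) : ContinuousOn (hrm a b i) (DomO i) := by
  unfold hrm
  intro p hp
  refine ContinuousAt.continuousWithinAt ?_
  refine ContinuousAt.add ?_ ?_
  · refine tendsto_finsetSum _ fun j _ => ?_
    refine continuousAt_const.mul (ContinuousAt.log ?_ (norm_ne_zero_iff.2 (hp.1 j)))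
    have : Continuous fun p : Lift => ‖p.1 j (i.σ j)‖ := by fun_prop
    exact this.continuousAt
  · refine continuousAt_const.mul (ContinuousAt.log ?_ (norm_ne_zero_iff.2 hp.2))
    exact (contDiff_wv i i.c).continuous.norm.continuousAt

theorem isOpen_DomO (i : CI) : IsOpen (DomO i) := isOpen_Dom' i

theorem Dom_eq (i : CI) : Dom i = LS ∩ DomO i := rfl

theorem pot_sec_co' (a : Fin 3 → ℝ) (b : ℝ) (i : CI) {p : Lift} (hp : p ∈ Dom i) :
    pot a b (sec i (co i p)) = pot a b p - hrm a b i p := by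
  rw [sec_co i hp, pot_act a b (fun j => inv_ne_zero (hp.2.1 j)) (inv_ne_zero hp.2.2) hp.1]
  unfold hrm
  simp only [norm_inv, Real.log_inv, mul_neg, Finset.sum_neg_distrib]
  ring

theorem pot_sec_co (a : Fin 3 → ℝ) (b : ℝ) (i : CI) {p : Lift} (hp : p ∈ Dom i) :
    pot a b (sec i (co i p)) =
      pot a b p - ∑ j, a j * Real.log ‖p.1 j (i.σ j)‖ - b * Real.log ‖wv i p i.c‖ := by
  rw [pot_sec_co' a b i hp]
  unfold hrm
  ring

theorem chart_rho (a : Fin 3 → ℝ) (b : ℝ) (i : CI) {p : Lift} (hp : p ∈ Dom i) :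
    pot a b (sec i (chartX i (prj p))) = pot a b p - hrm a b i p := by
  rw [chartX_prj i hp, pot_sec_co' a b i hp]

theorem isOpen_sec_preimage (i j : CI) : IsOpen (sec j ⁻¹' Dom i) := by
  have h : sec j ⁻¹' Dom i = sec j ⁻¹' DomO i := by
    ext z
    exact ⟨fun h => h.2, fun h => ⟨(sec_mem j z).1, h⟩⟩
  rw [h]
  exact (isOpen_DomO i).preimage (contDiff_sec j).continuous

theorem line_sec (j : CI) (z v : EE) : Differentiable ℂ fun ζ : ℂ => sec j (z + ζ • v) := by
  have h1 : Differentiable ℂ (sec j) := (contDiff_sec j).differentiable (by simp)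
  exact h1.comp (by fun_prop)

theorem harmonicAt_line (a : Fin 3 → ℝ) (b : ℝ) (i j : CI) (z v : EE) (hz : sec j z ∈ Dom i) :
    HarmonicAt (fun ζ : ℂ => hrm a b i (sec j (z + ζ • v))) 0 := by
  refine harmonicAt_hrm a b i isOpen_univ (line_sec j z v).differentiableOn (mem_univ _) ?_
  simpa using hz.2

theorem eventually_line (i j : CI) (z v : EE) (hz : sec j z ∈ Dom i) :
    ∀ᶠ ζ : ℂ in 𝓝 0, sec j (z + ζ • v) ∈ Dom i := by
  have h1 : ContinuousAt (fun ζ : ℂ => z + ζ • v) 0 := by fun_prop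
  have h2 : sec j ⁻¹' Dom i ∈ 𝓝 ((fun ζ : ℂ => z + ζ • v) 0) := by
    apply (isOpen_sec_preimage i j).mem_nhds
    simpa using hz
  exact h1 h2

theorem mem_tgt {i j : CI} {z : EE} :
    z ∈ (chartX j).target ∩ (chartX j).symm ⁻¹' (chartX i).source ↔ sec j z ∈ Dom i := by
  constructor
  · rintro ⟨-, h⟩
    exact (prj_mem_source i (sec_mem j z).1).1 h
  · intro h
    exact ⟨mem_univ _, (prj_mem_source i (sec_mem j z).1).2 h⟩

def frm (a : Fin 3 → ℝ) (b : ℝ) : ClosedForm EE XX where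
  ι := CI
  U i := (chartX i).source
  ρ i x := pot a b (sec i (chartX i x))
  isOpen_U i := (chartX i).open_source
  cover x := exists_chart x
  smooth i e he := by
    obtain ⟨j, rfl⟩ := (mem_atlas_iff e).1 he
    have hset : (chartX j).target ∩ (chartX j).symm ⁻¹' (chartX i).source = sec j ⁻¹' Dom i := by
      ext z
      exact mem_tgt
    rw [hset]
    have h1 : ContDiffOn ℝ ∞ (fun z => sec i (co i (sec j z))) (sec j ⁻¹' Dom i) := by
      have h2 : ContDiffOn ℂ ω (fun z => sec i (co i (sec j z))) (sec j ⁻¹' Dom i) :=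
        (contDiff_sec i).comp_contDiffOn
          ((contDiffOn_co i).comp (contDiff_sec j).contDiffOn fun z hz => hz.2)
      exact (h2.of_le le_top).restrict_scalars ℝ
    have h3 : ContDiffOn ℝ ∞ (fun z => pot a b (sec i (co i (sec j z)))) (sec j ⁻¹' Dom i) := by
      intro z hz
      exact ContDiffAt.comp_contDiffWithinAt (f := fun z => sec i (co i (sec j z))) z
        (contDiffAt_pot a b (sec_mem i (co i (sec j z))).1) (h1 z hz)
    refine h3.congr ?_
    intro z hz
    show pot a b (sec i (chartX i (prj (sec j z)))) = _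
    rw [chartX_prj i hz]
  pluriharmonic i j e he z hz v := by
    obtain ⟨k, rfl⟩ := (mem_atlas_iff e).1 he
    have hi : sec k z ∈ Dom i := mem_tgt.1 ⟨hz.1, hz.2.1⟩
    have hj : sec k z ∈ Dom j := mem_tgt.1 ⟨hz.1, hz.2.2⟩
    have h1 := (harmonicAt_line a b j k z v hj).sub (harmonicAt_line a b i k z v hi)
    refine (harmonicAt_congr_nhds ?_).1 h1
    filter_upwards [eventually_line i k z v hi, eventually_line j k z v hj] with ζ h2 h3
    show _ = pot a b (sec i (chartX i (prj (sec k (z + ζ • v))))) -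
      pot a b (sec j (chartX j (prj (sec k (z + ζ • v)))))
    rw [chart_rho a b i h2, chart_rho a b j h3]
    simp only [Pi.sub_apply]
    ring

/-- potential in the chart domain -/
theorem frm_rho_prj (a : Fin 3 → ℝ) (b : ℝ) (i : CI) {p : Lift} (hp : p ∈ Dom i) :
    (frm a b).ρ i (prj p) =
      pot a b p - ∑ j, a j * Real.log ‖p.1 j (i.σ j)‖ - b * Real.log ‖wv i p i.c‖ := by
  show pot a b (sec i (chartX i (prj p))) = _
  rw [chartX_prj i hp, pot_sec_co a b i hp]

theorem frm_rho_prj' (a : Fin 3 → ℝ) (b : ℝ) (i : CI) {p : Lift} (hp : p ∈ Dom i) :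
    (frm a b).ρ i (prj p) = pot a b p - hrm a b i p := chart_rho a b i hp

theorem frm_kahler : (frm (fun _ => 1) 1).IsKahler := by
  intro i e he z hz v hv
  obtain ⟨j, rfl⟩ := (mem_atlas_iff e).1 he
  have hi : sec j z ∈ Dom i := mem_tgt.1 hz
  have h0 := laplacian_pot_pos j z v hv
  have hh := harmonicAt_line (fun _ => 1) 1 i j z v hi
  have hcd : ContDiffAt ℝ 2 (fun ζ : ℂ => pot (fun _ => 1) 1 (sec j (z + ζ • v))) 0 := by
    have h1 : ContDiffAt ℝ ∞ (pot (fun _ => 1) 1) (sec j (z + (0 : ℂ) • v)) :=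
      contDiffAt_pot _ _ (sec_mem j _).1
    have h2 : ContDiff ℝ ∞ fun ζ : ℂ => sec j (z + ζ • v) := by
      have h3 : ContDiff ℂ ω fun ζ : ℂ => sec j (z + ζ • v) :=
        (contDiff_sec j).comp (by fun_prop)
      exact (h3.of_le le_top).restrict_scalars ℝ
    have h4 : ContDiffAt ℝ ∞ (fun ζ : ℂ => pot (fun _ => 1) 1 (sec j (z + ζ • v))) 0 :=
      ContDiffAt.comp (g := pot (fun _ => 1) 1) (f := fun ζ : ℂ => sec j (z + ζ • v)) (0 : ℂ) h1
        h2.contDiffAt
    exact h4.of_le (by norm_cast)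
  have heq : (fun ζ : ℂ => (frm (fun _ => 1) 1).ρ i ((chartX j).symm (z + ζ • v))) =ᶠ[𝓝 0]
      (fun ζ : ℂ => pot (fun _ => 1) 1 (sec j (z + ζ • v))) -
      (fun ζ : ℂ => hrm (fun _ => 1) 1 i (sec j (z + ζ • v))) := by
    filter_upwards [eventually_line i j z v hi] with ζ h2
    show (frm (fun _ => 1) 1).ρ i (prj (sec j (z + ζ • v))) = _
    rw [frm_rho_prj' _ _ i h2]
    rfl
  rw [(laplacian_congr_nhds heq).self_of_nhds, hcd.laplacian_sub hh.1, hh.2.self_of_nhds]
  simpa using h0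

/-! ### psh functions on `XX` and homogeneous psh functions on `LS` -/

theorem holOn_sec (j : CI) (S : Set EE) : HolOn (sec j) S :=
  HolOn.of_diff (O := univ) ((contDiff_sec j).differentiable (by simp)).differentiableOn
    (subset_univ _)

theorem holOn_co (i : CI) : HolOn (co i) (Dom i) :=
  HolOn.of_diff (O := DomO i) ((contDiffOn_co i).differentiableOn (by simp)) fun _ hp => hp.2

/-- adding the pluriharmonic correction -/
theorem PSHOn.add_hrm {f : Lift → EReal} (a : Fin 3 → ℝ) (b : ℝ) (i : CI)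
    (hf : PSHOn f (Dom i)) : PSHOn (fun p => f p + (hrm a b i p : EReal)) (Dom i) := by
  refine hf.add_harm ((continuousOn_hrm a b i).mono fun p hp => hp.2) ?_
  intro U g hU hg hm z hz
  exact harmonicAt_hrm a b i hU hg hz (hm hz).2

theorem PSHOn.sub_hrm {f : Lift → EReal} (a : Fin 3 → ℝ) (b : ℝ) (i : CI)
    (hf : PSHOn f (Dom i)) : PSHOn (fun p => f p + ((-hrm a b i p : ℝ) : EReal)) (Dom i) := by
  refine hf.add_harm (((continuousOn_hrm a b i).mono fun p hp => hp.2).neg) ?_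
  intro U g hU hg hm z hz
  exact (harmonicAt_hrm a b i hU hg hz (hm hz).2).neg

theorem continuousOn_pot (a : Fin 3 → ℝ) (b : ℝ) : ContinuousOn (pot a b) LS := fun _ hp =>
  (contDiffAt_pot a b hp).continuousAt.continuousWithinAt

theorem nhds_mk' (p : LS) : 𝓝 (mk' p) = Filter.map mk' (𝓝 p) :=
  (isOpenQuotientMap_mk'.isOpenMap.map_nhds_eq isOpenQuotientMap_mk'.continuous.continuousAt).symm

/-- A function `f` on the lift space `LS`, psh along holomorphic discs of `LS`, homogeneous of class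
`(a;b)`, gives a `θ`-psh function `v` (`θ = frm a b`), where `v (prj p) + pot a b p = f p`. -/
theorem mpsh_of_lift {a : Fin 3 → ℝ} {b : ℝ} {f : Lift → EReal} (hf : PSHOn f LS)
    (hom : ∀ (c : Fin 3 → ℂ) (d : ℂ), (∀ j, c j ≠ 0) → d ≠ 0 → ∀ p ∈ LS,
      f (act c d p) = f p + ((∑ j, a j * Real.log ‖c j‖ + b * Real.log ‖d‖ : ℝ) : EReal))
    {v : XX → EReal} (hv : ∀ p ∈ LS, v (prj p) + (pot a b p : EReal) = f p) :
    UpperSemicontinuous v ∧ (∀ x, v x < ⊤) ∧
      ∀ i, MPSHOn EE (fun x => v x + (((frm a b).ρ i x : ℝ) : EReal)) ((frm a b).U i) := by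
  have hv' : ∀ p ∈ LS, v (prj p) = f p + ((-pot a b p : ℝ) : EReal) := by
    intro p hp
    rw [← hv p hp, add_coe_neg_cancel]
  refine ⟨?_, ?_, ?_⟩
  · intro x y hxy
    obtain ⟨p, rfl⟩ := isOpenQuotientMap_mk'.surjective x
    rw [nhds_mk', eventually_map]
    have h1 : UpperSemicontinuousWithinAt (fun p => f p + ((-pot a b p : ℝ) : EReal)) LS p.1 :=
      usc_add_coe_within (hf.1 p.1 p.2) ((continuousOn_pot a b).neg p.1 p.2)
    have h2 : f p.1 + ((-pot a b p.1 : ℝ) : EReal) < y := by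
      rw [← hv' p.1 p.2, prj_coe]
      exact hxy
    have h3 := (eventually_nhds_subtype_iff LS p _).2 (h1 y h2)
    filter_upwards [h3] with q hq
    rw [← prj_coe, hv' q.1 q.2]
    exact hq
  · intro x
    obtain ⟨p, hp, rfl⟩ := prj_surj x
    rw [hv' p hp]
    exact EReal.add_lt_top (hf.2.1 p hp).ne (EReal.coe_ne_top _)
  · intro i e he
    obtain ⟨j, rfl⟩ := (mem_atlas_iff e).1 he
    have hset : (chartX j).target ∩ (chartX j).symm ⁻¹' (frm a b).U i = sec j ⁻¹' Dom i := by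
      ext z
      exact mem_tgt
    rw [hset]
    have h1 : PSHOn (fun p => f p + ((-hrm a b i p : ℝ) : EReal)) (Dom i) :=
      (hf.mono fun p hp => hp.1).sub_hrm a b i
    have h2 := h1.comp (holOn_sec j (sec j ⁻¹' Dom i)) (fun z hz => hz)
    refine h2.congr ?_
    intro z hz
    show f (sec j z) + ((-hrm a b i (sec j z) : ℝ) : EReal) =
      v (prj (sec j z)) + (((frm a b).ρ i (prj (sec j z)) : ℝ) : EReal)
    rw [frm_rho_prj' a b i hz, hv' _ (sec_mem j z).1, add_assoc, ← EReal.coe_add]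
    congr 2
    ring

/-- existence of `v` -/
theorem exists_of_lift {a : Fin 3 → ℝ} {b : ℝ} {f : Lift → EReal}
    (hom : ∀ (c : Fin 3 → ℂ) (d : ℂ), (∀ j, c j ≠ 0) → d ≠ 0 → ∀ p ∈ LS,
      f (act c d p) = f p + ((∑ j, a j * Real.log ‖c j‖ + b * Real.log ‖d‖ : ℝ) : EReal)) :
    ∃ v : XX → EReal, ∀ p ∈ LS, v (prj p) + (pot a b p : EReal) = f p := by
  choose q hq hqx using prj_surj
  refine ⟨fun x => f (q x) + ((-pot a b (q x) : ℝ) : EReal), ?_⟩
  intro p hp
  obtain ⟨c, d, hc, hd, h⟩ := (prj_eq_iff (hq (prj p)) hp).1 (hqx (prj p))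
  have h1 := hom c d hc hd (q (prj p)) (hq _)
  have h2 := pot_act a b hc hd (hq (prj p))
  rw [← h] at h1 h2
  rw [h1, h2, add_assoc, ← EReal.coe_add]
  congr 2
  ring

/-- Conversely a `θ`-psh function on `XX` lifts to a homogeneous psh function on `LS`. -/
theorem lift_psh {a : Fin 3 → ℝ} {b : ℝ} {v : XX → EReal} (hv : (frm a b).IsPSH v) :
    PSHOn (fun p => v (prj p) + (pot a b p : EReal)) LS := by
  refine PSHOn.of_local ?_ ?_ ?_
  · intro p hp
    refine usc_add_coe_within ?_ (continuousOn_pot a b p hp)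
    intro y hy
    exact continuousOn_prj p hp (hv.usc (prj p) y hy)
  · intro p hp
    exact EReal.add_lt_top (hv.lt_top _).ne (EReal.coe_ne_top _)
  · intro U g hU hg hm z hz
    obtain ⟨i, hi⟩ := exists_mem_Dom (hm hz)
    have h1 : PSHOn ((fun x => v x + (((frm a b).ρ i x : ℝ) : EReal)) ∘ (chartX i).symm) univ := by
      have h := hv.psh i (chartX i) ((mem_atlas_iff _).2 ⟨i, rfl⟩)
      refine h.mono ?_
      intro z _
      exact mem_tgt.2 (sec_mem i z)
    have h2 := (h1.comp (holOn_co i) (mapsTo_univ _ _)).add_hrm a b i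
    have h3 : PSHOn (fun p => v (prj p) + (pot a b p : EReal)) (Dom i) := by
      refine h2.congr ?_
      intro p hp
      show v (prj (sec i (co i p))) + (((frm a b).ρ i (prj (sec i (co i p))) : ℝ) : EReal) +
        (hrm a b i p : EReal) = _
      rw [prj_sec_coX i hp, frm_rho_prj' a b i hp, add_assoc, ← EReal.coe_add]
      congr 2
      ring
    have hV : IsOpen (U ∩ g ⁻¹' DomO i) := hg.continuousOn.isOpen_inter_preimage hU (isOpen_DomO i)
    exact (h3.subMean_eventually hV (hg.mono inter_subset_left)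
      (fun ζ hζ => ⟨hm hζ.1, hζ.2⟩) ⟨hz, hi.2⟩).frequently

end PNB
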