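import Pool.Agent.helper61.PNB.Model
/-! MODULE M1 : group action and topology of the manifold `XX`. -/
open Complex Metric Set Filter Topology InnerProductSpace
open scoped ContDiff Manifold Laplacian
noncomputable section
namespace PNB

theorem mono_smul (c : ℂ) (x : Fin 2 → ℂ) (i : Fin 3) : mono (c • x) i = c ^ 2 * mono x i := by
  unfold mono
  fin_cases i <;> simp <;> ring

theorem ev_act (c : Fin 3 → ℂ) (d : ℂ) (T : TQ) (x : Pt) :
    ev (d • T) (fun j => c j • x j) = d * (∏ j, c j) ^ 2 * ev T x := by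
  unfold ev
  rw [Finset.mul_sum]
  refine Finset.sum_congr rfl fun q _ => ?_
  simp only [mono_smul, Finset.prod_mul_distrib, Finset.prod_pow, Pi.smul_apply, smul_eq_mul]
  ring

theorem act_mem {c : Fin 3 → ℂ} {d : ℂ} (hc : ∀ j, c j ≠ 0) (hd : d ≠ 0) {p : Lift} (hp : p ∈ LS) :
    act c d p ∈ LS := by
  obtain ⟨h1, h2, h3⟩ := hp
  have hprod : (∏ j, c j) ≠ 0 := Finset.prod_ne_zero_iff.2 fun j _ => hc j
  refine ⟨fun j => smul_ne_zero (hc j) (h1 j), ?_, ?_⟩
  · rcases h2 with h | h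
    · exact Or.inl (smul_ne_zero hd h)
    · exact Or.inr (mul_ne_zero (mul_ne_zero hd (inv_ne_zero hprod)) h)
  · show ev (d • p.2.1) (fun j => c j • p.1 j) = 0
    rw [ev_act, h3, mul_zero]

theorem prj_eq_iff {p p' : Lift} (hp : p ∈ LS) (hp' : p' ∈ LS) :
    prj p = prj p' ↔ ∃ (c : Fin 3 → ℂ) (d : ℂ), (∀ j, c j ≠ 0) ∧ d ≠ 0 ∧ p' = act c d p := by
  rw [prj_of_mem hp, prj_of_mem hp']
  exact Quotient.eq (r := lsSetoid)

/-- the quotient map -/
def mk' : LS → XX := Quotient.mk lsSetoid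

theorem prj_coe (p : LS) : prj (p : Lift) = mk' p := prj_of_mem p.2

theorem prj_surj (x : XX) : ∃ p ∈ LS, prj p = x := by
  obtain ⟨p, rfl⟩ := Quotient.exists_rep x
  exact ⟨p, p.2, prj_of_mem p.2⟩

theorem continuous_mk' : Continuous mk' := continuous_quotient_mk'

theorem continuousOn_prj : ContinuousOn prj LS := by
  rw [continuousOn_iff_continuous_domRestrict]
  have : LS.domRestrict prj = mk' := by
    funext p
    exact prj_of_mem p.2
  rw [this]
  exact continuous_mk'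

theorem surjective_mk' : Function.Surjective mk' := Quotient.exists_rep

theorem continuous_act (c : Fin 3 → ℂ) (d : ℂ) : Continuous (act c d) := by
  unfold act
  fun_prop

theorem mk'_eq_iff (p p' : LS) :
    mk' p = mk' p' ↔ ∃ (c : Fin 3 → ℂ) (d : ℂ), (∀ j, c j ≠ 0) ∧ d ≠ 0 ∧
      (p' : Lift) = act c d p := by
  exact Quotient.eq (r := lsSetoid)

theorem isOpenMap_mk' : IsOpenMap mk' := by
  intro U hU
  have hq : IsQuotientMap mk' := isQuotientMap_quotient_mk'
  rw [← hq.isOpen_preimage]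
  have : mk' ⁻¹' (mk' '' U) = ⋃ (c : {c : Fin 3 → ℂ // ∀ j, c j ≠ 0}) (d : {d : ℂ // d ≠ 0}),
      (fun p : LS => (⟨act c.1 d.1 p, act_mem c.2 d.2 p.2⟩ : LS)) ⁻¹' U := by
    ext p
    simp only [mem_preimage, mem_image, mem_iUnion]
    constructor
    · rintro ⟨p', hp', he⟩
      obtain ⟨c, d, hc, hd, h⟩ := (mk'_eq_iff p p').1 he.symm
      refine ⟨⟨c, hc⟩, ⟨d, hd⟩, ?_⟩
      have : (⟨act c d p, act_mem hc hd p.2⟩ : LS) = p' := Subtype.ext h.symm
      simpa [this] using hp'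
    · rintro ⟨c, d, h⟩
      exact ⟨_, h, ((mk'_eq_iff _ _).2 ⟨c.1, d.1, c.2, d.2, rfl⟩).symm⟩
  rw [this]
  refine isOpen_iUnion fun c => isOpen_iUnion fun d => hU.preimage ?_
  exact Continuous.subtype_mk ((continuous_act c.1 d.1).comp continuous_subtype_val) _

theorem isOpenQuotientMap_mk' : IsOpenQuotientMap mk' :=
  ⟨surjective_mk', continuous_mk', isOpenMap_mk'⟩

/-- the vector `(T, s x₀ ⊗ x₁ ⊗ x₂)` -/
def WW (p : Lift) : (Q ⊕ (Fin 3 → Fin 2)) → ℂ
  | Sum.inl q => p.2.1 q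
  | Sum.inr σ => p.2.2 * ∏ j, p.1 j (σ j)

theorem continuous_WW (k : Q ⊕ (Fin 3 → Fin 2)) : Continuous fun p => WW p k := by
  rcases k with q | σ
  · unfold WW; fun_prop
  · unfold WW; fun_prop

theorem WW_act {c : Fin 3 → ℂ} (hc : ∀ j, c j ≠ 0) (d : ℂ) (p : Lift)
    (k : Q ⊕ (Fin 3 → Fin 2)) : WW (act c d p) k = d * WW p k := by
  have hprod : (∏ j, c j) ≠ 0 := Finset.prod_ne_zero_iff.2 fun j _ => hc j
  rcases k with q | σ
  · simp [WW, act]
  · simp only [WW, act, Pi.smul_apply, smul_eq_mul, Finset.prod_mul_distrib]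
    field_simp

theorem exists_coord {x : Fin 2 → ℂ} (h : x ≠ 0) : ∃ k, x k ≠ 0 := by
  by_contra hcon
  push Not at hcon
  exact h (funext hcon)

/-- two nonzero vectors with vanishing minors are proportional -/
theorem exists_smul {ι : Type*} {v w : ι → ℂ} (hv : ∃ k, v k ≠ 0) (hw : ∃ k, w k ≠ 0)
    (h : ∀ k l, v k * w l = v l * w k) : ∃ c : ℂ, c ≠ 0 ∧ ∀ k, w k = c * v k := by
  obtain ⟨k, hk⟩ := hv
  obtain ⟨l, hl⟩ := hw
  refine ⟨w k / v k, ?_, fun m => ?_⟩
  · intro h0
    have : w k = 0 := by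
      rcases div_eq_zero_iff.1 h0 with h1 | h1
      · exact h1
      · exact absurd h1 hk
    have h2 := h k l
    rw [this, mul_zero] at h2
    exact (mul_ne_zero hk hl) h2
  · rw [div_mul_eq_mul_div, eq_div_iff hk]
    have := h k m
    linear_combination this

theorem exists_WW {p : Lift} (hp : p ∈ LS) : ∃ k, WW p k ≠ 0 := by
  obtain ⟨h1, h2, _⟩ := hp
  rcases h2 with h | h
  · by_contra hcon
    push Not at hcon
    exact h (funext fun q => hcon (Sum.inl q))
  · choose σ hσ using fun j => exists_coord (h1 j)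
    exact ⟨Sum.inr σ, mul_ne_zero h (Finset.prod_ne_zero_iff.2 fun j _ => hσ j)⟩

theorem rel_iff {p p' : Lift} (hp : p ∈ LS) (hp' : p' ∈ LS) :
    (∃ (c : Fin 3 → ℂ) (d : ℂ), (∀ j, c j ≠ 0) ∧ d ≠ 0 ∧ p' = act c d p) ↔
      (∀ j k l, p.1 j k * p'.1 j l = p.1 j l * p'.1 j k) ∧
      (∀ k l, WW p k * WW p' l = WW p l * WW p' k) := by
  constructor
  · rintro ⟨c, d, hc, hd, rfl⟩
    refine ⟨fun j k l => ?_, fun k l => ?_⟩
    · simp only [act, Pi.smul_apply, smul_eq_mul]; ring
    · rw [WW_act hc, WW_act hc]; ring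
  · rintro ⟨h1, h2⟩
    choose c hc hc' using fun j => exists_smul (exists_coord (hp.1 j)) (exists_coord (hp'.1 j))
      (h1 j)
    obtain ⟨d, hd, hd'⟩ := exists_smul (exists_WW hp) (exists_WW hp') h2
    have hprod : (∏ j, c j) ≠ 0 := Finset.prod_ne_zero_iff.2 fun j _ => hc j
    refine ⟨c, d, hc, hd, ?_⟩
    have e1 : p'.1 = fun j => c j • p.1 j := by
      funext j k
      simp [hc' j k]
    have e2 : p'.2.1 = d • p.2.1 := by
      funext q
      have := hd' (Sum.inl q)
      simpa [WW] using this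
    have e3 : p'.2.2 = d * (∏ j, c j)⁻¹ * p.2.2 := by
      choose σ hσ using fun j => exists_coord (hp.1 j)
      have hpσ : (∏ j, p.1 j (σ j)) ≠ 0 := Finset.prod_ne_zero_iff.2 fun j _ => hσ j
      have := hd' (Sum.inr σ)
      simp only [WW, hc', Finset.prod_mul_distrib] at this
      have h3 : p'.2.2 * (∏ j, c j) = d * p.2.2 :=
        mul_right_cancel₀ hpσ (by linear_combination this)
      field_simp
      exact h3
    unfold act
    rw [← e1, ← e2, ← e3]

instance : T2Space XX := by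
  rw [t2Space_iff_of_isOpenQuotientMap isOpenQuotientMap_mk']
  have : {q : LS × LS | mk' q.1 = mk' q.2} = {q : LS × LS |
      (∀ j k l, (q.1 : Lift).1 j k * (q.2 : Lift).1 j l = (q.1 : Lift).1 j l * (q.2 : Lift).1 j k) ∧
      (∀ k l, WW (q.1 : Lift) k * WW (q.2 : Lift) l = WW (q.1 : Lift) l * WW (q.2 : Lift) k)} := by
    ext q
    simp only [mem_ofPred_eq]
    rw [mk'_eq_iff, rel_iff q.1.2 q.2.2]
  rw [this, ofPred_and]
  refine IsClosed.inter ?_ ?_
  · simp only [ofPred_forall]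
    refine isClosed_iInter fun j => isClosed_iInter fun k => isClosed_iInter fun l => ?_
    exact isClosed_eq (by fun_prop) (by fun_prop)
  · simp only [ofPred_forall]
    refine isClosed_iInter fun k => isClosed_iInter fun l => ?_
    have c1 : ∀ k, Continuous fun q : LS × LS => WW (q.1 : Lift) k := fun k =>
      (continuous_WW k).comp (continuous_subtype_val.comp continuous_fst)
    have c2 : ∀ k, Continuous fun q : LS × LS => WW (q.2 : Lift) k := fun k =>
      (continuous_WW k).comp (continuous_subtype_val.comp continuous_snd)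
    exact isClosed_eq ((c1 k).mul (c2 l)) ((c1 l).mul (c2 k))

/-- unit lifts -/
def unitLS : Set Lift := {p | (∀ j, ‖p.1 j‖ = 1) ∧ ‖p.2‖ = 1 ∧ ev p.2.1 p.1 = 0}

theorem continuous_ev : Continuous fun p : Lift => ev p.2.1 p.1 := by
  unfold ev mono
  fun_prop

theorem isCompact_unitLS : IsCompact unitLS := by
  rw [isCompact_iff_isClosed_bounded]
  constructor
  · unfold unitLS
    rw [ofPred_and, ofPred_and, ofPred_forall]
    refine (isClosed_iInter fun j => ?_).inter ((?_ : IsClosed _).inter ?_)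
    · exact isClosed_eq (by fun_prop) continuous_const
    · exact isClosed_eq (by fun_prop) continuous_const
    · exact isClosed_eq continuous_ev continuous_const
  · rw [isBounded_iff_forall_norm_le]
    refine ⟨1, fun p hp => ?_⟩
    rw [Prod.norm_def]
    refine max_le ?_ hp.2.1.le
    rw [pi_norm_le_iff_of_nonneg zero_le_one]
    exact fun j => (hp.1 j).le

theorem unitLS_subset : unitLS ⊆ LS := by
  rintro p ⟨h1, h2, h3⟩
  refine ⟨fun j h0 => ?_, ?_, h3⟩
  · have := h1 j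
    rw [h0, norm_zero] at this; norm_num at this
  · by_contra hcon
    push Not at hcon
    have : p.2 = 0 := Prod.ext hcon.1 hcon.2
    rw [this, norm_zero] at h2; norm_num at h2

theorem exists_unit {p : Lift} (hp : p ∈ LS) : ∃ p' ∈ unitLS, prj p' = prj p := by
  set c : Fin 3 → ℂ := fun j => ((‖p.1 j‖⁻¹ : ℝ) : ℂ) with hc
  have hn : ∀ j, ‖p.1 j‖ ≠ 0 := fun j => norm_ne_zero_iff.2 (hp.1 j)
  have hc0 : ∀ j, c j ≠ 0 := fun j => by
    simp only [hc]; exact_mod_cast inv_ne_zero (hn j)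
  have hp1 := act_mem hc0 one_ne_zero hp
  set p1 := act c 1 p with hp1def
  have hne : ‖p1.2‖ ≠ 0 := by
    rw [norm_ne_zero_iff]
    intro h0
    rcases hp1.2.1 with h | h
    · exact h (by rw [h0]; rfl)
    · exact h (by rw [h0]; rfl)
  set d : ℂ := ((‖p1.2‖⁻¹ : ℝ) : ℂ) with hd
  have hd0 : d ≠ 0 := by rw [hd]; exact_mod_cast inv_ne_zero hne
  have hp2 := act_mem hc0 hd0 hp
  have e2 : (act c d p).2 = d • p1.2 := by
    ext1
    · rw [hp1def]; simp [act]
    · rw [hp1def]; simp [act]; ring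
  refine ⟨act c d p, ⟨fun j => ?_, ?_, hp2.2.2⟩, ?_⟩
  · show ‖c j • p.1 j‖ = 1
    rw [norm_smul, hc]
    simp only [Complex.norm_real, norm_inv, norm_norm]
    exact inv_mul_cancel₀ (hn j)
  · rw [e2, norm_smul, hd]
    simp only [Complex.norm_real, norm_inv, norm_norm]
    exact inv_mul_cancel₀ hne
  · exact ((prj_eq_iff hp hp2).2 ⟨c, d, hc0, hd0, rfl⟩).symm

instance : CompactSpace XX := by
  have h1 : IsCompact (prj '' unitLS) :=
    isCompact_unitLS.image_of_continuousOn (continuousOn_prj.mono unitLS_subset)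
  have h2 : prj '' unitLS = univ := by
    rw [eq_univ_iff_forall]
    intro x
    obtain ⟨p, hp, rfl⟩ := prj_surj x
    obtain ⟨p', hp', he⟩ := exists_unit hp
    exact ⟨p', hp', he⟩
  rw [h2] at h1
  exact ⟨h1⟩

end PNB
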